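import Pool.Agent.H929.BG.Stm

/-!
# BG: adding points to the rare multiplicities (`S_RedS`, helper539 for helper929)
-/

set_option autoImplicit false

namespace Pool.Agent.H539.BG

open Finset Pool.Agent.H929.BW Pool.Agent.H929.BG

lemma PP_le (n v : ℕ) (hv : 1 ≤ v) : PP n v ≤ (1 + (n : ℝ)) ^ (n + 1) * (v : ℝ) ^ (n + 1) := by
  refine (PP_upper n (Nat.cast_nonneg v)).trans ?_
  rw [← mul_pow]
  have h1 : (1 : ℝ) ≤ v := by exact_mod_cast hv
  have h2 : (0 : ℝ) ≤ n := Nat.cast_nonneg n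
  exact pow_le_pow_left₀ (by positivity) (by nlinarith) _

/-- `(a + b) ^ s ≤ a ^ s + b` if `b = 0` or `1 ≤ b` -/
lemma rp {a b s : ℝ} (ha : 0 ≤ a) (hb : b = 0 ∨ 1 ≤ b) (hs : 0 ≤ s) (hs1 : s ≤ 1) :
    (a + b) ^ s ≤ a ^ s + b := by
  rcases hb with rfl | hb
  · simp
  · refine (Real.rpow_add_le_add_rpow ha (by linarith) hs hs1).trans ?_
    have h1 : b ^ s ≤ b ^ (1 : ℝ) := Real.rpow_le_rpow_of_exponent_le hb hs1
    rw [Real.rpow_one] at h1
    linarith

theorem t_RedS : S_RedS := by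
  classical
  intro n K₀ hn hK₀
  obtain ⟨k, hk, hk1, hk2⟩ : ∃ k : ℕ, k = ⌈K₀⌉₊ ∧ K₀ ≤ k ∧ (k : ℝ) ≤ K₀ + 1 :=
    ⟨⌈K₀⌉₊, rfl, Nat.le_ceil _, (Nat.ceil_lt_add_one (by linarith)).le⟩
  obtain ⟨c, hc⟩ : ∃ c : ℝ, c = (1 + (n : ℝ)) ^ (n + 1) := ⟨_, rfl⟩
  have hn0 : (0 : ℝ) ≤ n := Nat.cast_nonneg n
  have hc1 : 1 ≤ c := by
    rw [hc]
    exact one_le_pow₀ (by linarith)
  obtain ⟨K, hK⟩ : ∃ K : ℝ, K = 2 * (K₀ + 1) ^ 2 * c := ⟨_, rfl⟩
  have hKK : K₀ ≤ K := by rw [hK]; nlinarith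
  refine ⟨K, hK₀.trans hKK, ?_⟩
  intro A r Q hA h1 hQ
  obtain ⟨p, hp⟩ : ∃ p, p = A.min' hA := ⟨_, rfl⟩
  have hpA : p ∈ A := by rw [hp]; exact A.min'_mem hA
  have hple : ∀ v ∈ A, p ≤ v := fun v hv => by rw [hp]; exact A.min'_le v hv
  have hp1 : 1 ≤ p := h1 p hpA
  have hp1' : (1 : ℝ) ≤ p := by exact_mod_cast hp1
  have hpN : (0 : ℝ) < (p : ℝ) ^ (n + 1) := by positivity
  obtain ⟨G, hG⟩ : ∃ G, G = A.filter fun w => (low A w).Nonempty ∧
    ∑ u ∈ low A w, (r u : ℝ) * (u : ℝ) ^ (n + 1) < K₀ * (w : ℝ) ^ (n + 1) := ⟨_, rfl⟩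
  obtain ⟨g, hg⟩ : ∃ g : ℕ → ℕ, g = fun w : ℕ => ⌈K₀ * (w : ℝ) ^ (n + 1) / (p : ℝ) ^ (n + 1)⌉₊ := ⟨_, rfl⟩
  obtain ⟨r', hr'⟩ : ∃ r' : ℕ → ℕ, r' = fun v => max (r v) k + if v = p then ∑ w ∈ G, g w else 0 :=
    ⟨_, rfl⟩
  have hrr : ∀ v, r v ≤ r' v := by
    intro v
    rw [hr']
    exact (le_max_left _ _).trans (Nat.le_add_right _ _)
  have hrk : ∀ v, k ≤ r' v := by
    intro v
    rw [hr']
    exact (le_max_right _ _).trans (Nat.le_add_right _ _)
  have hrp : ∑ w ∈ G, g w ≤ r' p := by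
    rw [hr']
    simp
  -- the rare multiplicities
  have hBr : (A.filter fun v => (r v : ℝ) < K₀) ⊆ rare n K A r := by
    intro v hv
    rw [mem_filter] at hv
    unfold rare
    rw [mem_filter]
    exact ⟨hv.1, Or.inl (hv.2.trans_le hKK)⟩
  have hGr : G ⊆ rare n K A r := by
    intro v hv
    rw [hG, mem_filter] at hv
    unfold rare
    rw [mem_filter]
    refine ⟨hv.1, Or.inr ⟨hv.2.1, hv.2.2.trans_le ?_⟩⟩
    exact mul_le_mul_of_nonneg_right hKK (by positivity)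
  obtain ⟨R, hR⟩ : ∃ R : ℝ, R = ∑ w ∈ rare n K A r, (w : ℝ) ^ (n + 1) := ⟨_, rfl⟩
  have hR0 : 0 ≤ R := by rw [hR]; positivity
  have hBR : ∑ v ∈ A.filter fun v => (r v : ℝ) < K₀, (v : ℝ) ^ (n + 1) ≤ R := by
    rw [hR]
    exact sum_le_sum_of_subset_of_nonneg hBr fun _ _ _ => by positivity
  have hGR : ∑ v ∈ G, (v : ℝ) ^ (n + 1) ≤ R := by
    rw [hR]
    exact sum_le_sum_of_subset_of_nonneg hGr fun _ _ _ => by positivity
  -- the cost
  have hcost : ∀ ω : ℕ → ℝ, (∀ v, 0 ≤ ω v) → (∀ v, 1 ≤ v → ω v ≤ c * (v : ℝ) ^ (n + 1)) →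
      ∑ v ∈ A, ((r' v : ℝ) - r v) * ω v ≤ 2 * (K₀ + 1) * c * R := by
    intro ω hω0 hω
    have e1 : ∀ v ∈ A, ((r' v : ℝ) - r v) * ω v ≤
        (if (r v : ℝ) < K₀ then (k : ℝ) * ω v else 0) +
          (if v = p then ((∑ w ∈ G, g w : ℕ) : ℝ) * ω v else 0) := by
      intro v _
      have e2 : (r' v : ℝ) - r v ≤ (if (r v : ℝ) < K₀ then (k : ℝ) else 0) +
          (if v = p then ((∑ w ∈ G, g w : ℕ) : ℝ) else 0) := by
        have e3 : (r' v : ℝ) = ((max (r v) k : ℕ) : ℝ) +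
            (if v = p then ((∑ w ∈ G, g w : ℕ) : ℝ) else 0) := by
          rw [hr']
          push_cast
          rfl
        have e4 : ((max (r v) k : ℕ) : ℝ) ≤ r v + (if (r v : ℝ) < K₀ then (k : ℝ) else 0) := by
          split_ifs with h
          · have : max (r v) k ≤ r v + k := max_le (Nat.le_add_right _ _) (Nat.le_add_left _ _)
            exact_mod_cast this
          · have h2 : k ≤ r v := by
              rw [hk, Nat.ceil_le]
              exact not_lt.1 h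
            rw [max_eq_left h2, add_zero]
        linarith
      have e5 := mul_le_mul_of_nonneg_right e2 (hω0 v)
      refine e5.trans (le_of_eq ?_)
      rw [add_mul]
      congr 1
      · split_ifs <;> simp
      · split_ifs <;> simp
    refine (sum_le_sum e1).trans ?_
    rw [sum_add_distrib, ← sum_filter, sum_ite_eq' A p, if_pos hpA, ← mul_sum]
    have e6 : (k : ℝ) * ∑ v ∈ A.filter (fun v => (r v : ℝ) < K₀), ω v ≤ (K₀ + 1) * c * R := by
      have e7 : ∑ v ∈ A.filter (fun v => (r v : ℝ) < K₀), ω v ≤ c * R := by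
        calc ∑ v ∈ A.filter (fun v => (r v : ℝ) < K₀), ω v ≤
            ∑ v ∈ A.filter (fun v => (r v : ℝ) < K₀), c * (v : ℝ) ^ (n + 1) :=
              sum_le_sum fun v hv => hω v (h1 v (mem_filter.1 hv).1)
          _ = c * ∑ v ∈ A.filter (fun v => (r v : ℝ) < K₀), (v : ℝ) ^ (n + 1) := by rw [mul_sum]
          _ ≤ c * R := mul_le_mul_of_nonneg_left hBR (by linarith)
      calc (k : ℝ) * ∑ v ∈ A.filter (fun v => (r v : ℝ) < K₀), ω v ≤ k * (c * R) :=
            mul_le_mul_of_nonneg_left e7 (Nat.cast_nonneg k)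
        _ ≤ (K₀ + 1) * (c * R) := mul_le_mul_of_nonneg_right hk2 (by positivity)
        _ = (K₀ + 1) * c * R := by ring
    have e8 : ((∑ w ∈ G, g w : ℕ) : ℝ) * ω p ≤ (K₀ + 1) * c * R := by
      calc ((∑ w ∈ G, g w : ℕ) : ℝ) * ω p ≤ ((∑ w ∈ G, g w : ℕ) : ℝ) * (c * (p : ℝ) ^ (n + 1)) :=
            mul_le_mul_of_nonneg_left (hω p hp1) (Nat.cast_nonneg _)
        _ = ∑ w ∈ G, (g w : ℝ) * (c * (p : ℝ) ^ (n + 1)) := by
            rw [Nat.cast_sum, sum_mul]
        _ ≤ ∑ w ∈ G, (K₀ + 1) * c * (w : ℝ) ^ (n + 1) := by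
            refine sum_le_sum fun w hw => ?_
            have hwA : w ∈ A := by rw [hG] at hw; exact (mem_filter.1 hw).1
            have hpw : (p : ℝ) ^ (n + 1) ≤ (w : ℝ) ^ (n + 1) :=
              pow_le_pow_left₀ (by positivity) (by exact_mod_cast hple w hwA) _
            have hgw : (g w : ℝ) ≤ K₀ * (w : ℝ) ^ (n + 1) / (p : ℝ) ^ (n + 1) + 1 := by
              rw [hg]
              exact (Nat.ceil_lt_add_one (by positivity)).le
            calc (g w : ℝ) * (c * (p : ℝ) ^ (n + 1)) ≤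
                (K₀ * (w : ℝ) ^ (n + 1) / (p : ℝ) ^ (n + 1) + 1) * (c * (p : ℝ) ^ (n + 1)) :=
                  mul_le_mul_of_nonneg_right hgw (by positivity)
              _ = c * (K₀ * (w : ℝ) ^ (n + 1) + (p : ℝ) ^ (n + 1)) := by field_simp
              _ ≤ c * (K₀ * (w : ℝ) ^ (n + 1) + (w : ℝ) ^ (n + 1)) :=
                  mul_le_mul_of_nonneg_left (by linarith) (by linarith)
              _ = (K₀ + 1) * c * (w : ℝ) ^ (n + 1) := by ring
        _ = (K₀ + 1) * c * ∑ w ∈ G, (w : ℝ) ^ (n + 1) := by rw [mul_sum]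
        _ ≤ (K₀ + 1) * c * R := mul_le_mul_of_nonneg_left hGR (by positivity)
    linarith
  refine ⟨r', fun v _ => hrr v, ⟨hA, h1, fun v _ => hk1.trans (by exact_mod_cast hrk v), ?_⟩, ?_⟩
  · -- the volume below
    intro w hw hlow
    by_cases hwG : w ∈ G
    · have hplow : p ∈ low A w := by
        obtain ⟨u, hu⟩ := hlow
        unfold low at hu ⊢
        rw [mem_filter] at hu ⊢
        exact ⟨hpA, lt_of_le_of_lt (hple u hu.1) hu.2⟩
      have e1 : K₀ * (w : ℝ) ^ (n + 1) ≤ (r' p : ℝ) * (p : ℝ) ^ (n + 1) := by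
        have e2 : K₀ * (w : ℝ) ^ (n + 1) / (p : ℝ) ^ (n + 1) ≤ r' p := by
          have e3 : K₀ * (w : ℝ) ^ (n + 1) / (p : ℝ) ^ (n + 1) ≤ g w := by
            rw [hg]
            exact Nat.le_ceil _
          have e4 : g w ≤ ∑ w ∈ G, g w := single_le_sum (fun _ _ => Nat.zero_le _) hwG
          have e5 : (g w : ℝ) ≤ r' p := by exact_mod_cast e4.trans hrp
          exact e3.trans e5
        rwa [div_le_iff₀ hpN] at e2
      refine e1.trans ?_
      exact single_le_sum (f := fun u : ℕ => (r' u : ℝ) * (u : ℝ) ^ (n + 1))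
        (fun _ _ => by positivity) hplow
    · have e1 : K₀ * (w : ℝ) ^ (n + 1) ≤ ∑ u ∈ low A w, (r u : ℝ) * (u : ℝ) ^ (n + 1) := by
        by_contra h
        push Not at h
        apply hwG
        rw [hG, mem_filter]
        exact ⟨hw, hlow, h⟩
      refine e1.trans (sum_le_sum fun u _ => ?_)
      exact mul_le_mul_of_nonneg_right (by exact_mod_cast hrr u) (by positivity)
  · -- the total cost
    have d1 := hcost (fun v => PP n v) (fun v => PP_nonneg' n v) (fun v hv => by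
      rw [hc]; exact PP_le n v hv)
    have d2 := hcost (fun v => (v : ℝ) ^ (n + 1)) (fun v => by positivity) (fun v hv => by
      have : (0 : ℝ) ≤ (v : ℝ) ^ (n + 1) := by positivity
      nlinarith)
    have hs0 : (0 : ℝ) ≤ (n : ℝ) / (n + 1) := by positivity
    have hs1 : (n : ℝ) / (n + 1) ≤ 1 := by
      rw [div_le_one (by positivity)]
      linarith
    have hsurf : surf n A r' ≤ surf n A r + 2 * (K₀ + 1) * c * R := by
      have e1 : surf n A r' ≤ ∑ v ∈ A, (((r v : ℝ) * (v : ℝ) ^ (n + 1)) ^ ((n : ℝ) / (n + 1)) +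
          ((r' v : ℝ) - r v) * (v : ℝ) ^ (n + 1)) := by
        unfold surf
        refine sum_le_sum fun v hv => ?_
        have e2 : (r' v : ℝ) * (v : ℝ) ^ (n + 1) = (r v : ℝ) * (v : ℝ) ^ (n + 1) +
            ((r' v : ℝ) - r v) * (v : ℝ) ^ (n + 1) := by ring
        rw [e2]
        refine rp (by positivity) ?_ hs0 hs1
        rcases (hrr v).eq_or_lt with h | h
        · left
          rw [h, sub_self, zero_mul]
        · right
          have e3 : (1 : ℝ) ≤ (r' v : ℝ) - r v := by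
            have : (r v : ℝ) + 1 ≤ r' v := by exact_mod_cast h
            linarith
          have e4 : (1 : ℝ) ≤ (v : ℝ) ^ (n + 1) := one_le_pow₀ (by exact_mod_cast h1 v hv)
          nlinarith
      rw [sum_add_distrib] at e1
      unfold surf at e1 ⊢
      linarith
    have hsum : ∑ v ∈ A, (r' v : ℝ) * PP n v = ∑ v ∈ A, (r v : ℝ) * PP n v +
        ∑ v ∈ A, ((r' v : ℝ) - r v) * PP n v := by
      rw [← sum_add_distrib]
      exact sum_congr rfl fun v _ => by ring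
    have hS0 : 0 ≤ surf n A r := by
      unfold surf
      positivity
    rw [← hR] at hQ
    rw [hsum]
    have f1 : K₀ * surf n A r' ≤ K₀ * (surf n A r + 2 * (K₀ + 1) * c * R) :=
      mul_le_mul_of_nonneg_left hsurf (by linarith)
    have f2 : K₀ * surf n A r ≤ K * surf n A r := mul_le_mul_of_nonneg_right hKK hS0
    have f3 : K * R = 2 * (K₀ + 1) * c * R + K₀ * (2 * (K₀ + 1) * c * R) := by rw [hK]; ring
    linarith

end Pool.Agent.H539.BG
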